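import Pool.Agent.Q269.DX.LD.Stm
import Pool.Agent.Q269.DX.A87.LamB

/-!
# Project LD (helper44), job LD-LAMF: the mean of the product of the numbers of the solutions
-/

set_option autoImplicit false
set_option linter.unusedVariables false
set_option linter.unusedSectionVars false

namespace Pool.Agent.Q269.DX.A182L

open Pool.Agent.Q269.DX.Bs (ze ze_add)

open Finset Module Pool.Agent.Q269.DX.JQ Pool.Agent.Q269.DX.LD
open Pool.Agent.Q269.DX.Bs (prs)
open Pool.Agent.Q269.DX.A87 (tt n0 n0_le tt_le dif_le dif_map cnt_sum Zf Gx mem_Sel sg_sum sg_zero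
  abs_sg)
open scoped Classical

theorem key_if (A B C E p1 p2 p3 p4 : Prop) {_ : Decidable A} {_ : Decidable B} {_ : Decidable C}
    {_ : Decidable E}
    (k l : ℕ) (x : ℝ) (h : p3 → k ≤ l) (h' : p4 ↔ p2) (hA : A ↔ p1 ∧ p3 ∧ p4) (hB : B ↔ p1 ∧ p2)
    (hC : C ↔ p3 ∧ k = l) (hE : E ↔ p1 ∧ (p3 ∧ p4) ∧ k < l) :
    (if A then x else 0) - (if B then (1 : ℝ) else 0) *
      (if C then x else 0) = if E then x else 0 := by
  rw [if_congr hA rfl rfl, if_congr hB rfl rfl, if_congr hC rfl rfl, if_congr hE rfl rfl]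
  by_cases a1 : p1 <;> by_cases a2 : p2 <;> by_cases a3 : p3
  · have h4 : p4 := h'.2 a2
    rcases (h a3).lt_or_eq with h3 | h3
    · simp [a1, a2, a3, h4, h3, h3.ne]
    · simp [a1, a2, a3, h4, h3]
  all_goals simp [a1, a2, a3, h']

theorem prod_sum_fam {F : Type} [Fintype F] {X : F → Type} [∀ f, Fintype (X f)]
    (g : ∀ f, X f → ℝ) : ∏ f, ∑ x, g f x = ∑ e : ∀ f, X f, ∏ f, g f (e f) := by
  rw [Finset.prod_univ_sum]
  refine Finset.sum_congr ?_ fun _ _ => rfl
  ext e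
  simp

section one

variable {s V U ι : Type} [Fintype s] [AddCommGroup V] [Module (ZMod 2) V] [Fintype V]
  [Fintype U] [Fintype ι] [LinearOrder ι]

/-- the property of the span -/
def QQ (D : Dj s V) (Gm : Submodule (ZMod 2) V → Prop) (Λ : Submodule (ZMod 2) (V × V)) : Prop :=
  (∀ z ∈ Λ, D.ω z.2 z.1 = 0) ∧ Gm (Λ.map (LinearMap.fst (ZMod 2) V V))

/-- the span is singular of maximal order -/
def Sg (D : Dj s V) {κ : Type} (Z : κ → V × V) : Prop :=
  (∀ z ∈ dif Z, D.ω z.2 z.1 = 0) ∧ Nat.card (dif Z) = Nat.card V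

/-- the indicator of the conditions that do not depend on the symbols -/
noncomputable def gg (D : Dj s V) (b : Bk s U ι) (Gm : Submodule (ZMod 2) V → Prop)
    (e : (s → V) × (U ⊕ ι → V)) : ℝ :=
  if e ∈ EU D b ∧ Gm (dif fun i => e.2 (Sum.inr i)) then 1 else 0

theorem gg_zero_or_one (D : Dj s V) (b : Bk s U ι) (Gm : Submodule (ZMod 2) V → Prop)
    (e : (s → V) × (U ⊕ ι → V)) : 0 ≤ gg D b Gm e ∧ gg D b Gm e ≤ 1 := by
  unfold gg
  split_ifs <;> norm_num

/-- the main part of the sum -/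
noncomputable def tm (D : Dj s V) (b : Bk s U ι) (Gm : Submodule (ZMod 2) V → Prop) : ℝ :=
  ∑ e : (s → V) × (U ⊕ ι → V), ∑ W : ι → V,
    gg D b Gm e * (if Sg D (Zf e W) then sg (Gx D b e W) else 0)

theorem cnt_eq (D : Dj s V) (b : Bk s U ι) (Gm : Submodule (ZMod 2) V → Prop)
    (α : prs (univ : Finset ι) → ZMod 2) : (cnt D b Gm α : ℝ) =
      ∑ e : (s → V) × (U ⊕ ι → V), gg D b Gm e *
        (if ∀ i, rowL D (b.N D.s₀ α) b.h e (Sum.inr i) = 0 then (1 : ℝ) else 0) := by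
  unfold cnt
  rw [Nat.card_eq_fintype_card, Fintype.card_subtype, Finset.card_filter]
  push_cast
  refine Finset.sum_congr rfl fun e _ => ?_
  unfold gg
  rw [mem_Sel]
  by_cases a1 : e ∈ EU D b <;> by_cases a2 : Gm (dif fun i => e.2 (Sum.inr i)) <;>
    by_cases a3 : ∀ i, rowL D (b.N D.s₀ α) b.h e (Sum.inr i) = 0 <;> simp [a1, a2, a3]

theorem tm_close (hORT : S_ORT) (D : Dj s V) (hs : D.Sym)
    (nd : ∀ x, (∀ y, D.ω x y = 0) → x = 0) (b : Bk s U ι) (Gm : Submodule (ZMod 2) V → Prop) :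
    |tt D b (QQ D Gm) - tm D b Gm| ≤ n0 (s := s) (V := V) (U := U) (ι := ι) := by
  have h1 : tt D b (QQ D Gm) - tm D b Gm =
      tt D b (fun Λ => QQ D Gm Λ ∧ Nat.card Λ < Fintype.card V) := by
    unfold tt tm
    rw [← Finset.sum_sub_distrib]
    refine Finset.sum_congr rfl fun e _ => ?_
    rw [← Finset.sum_sub_distrib]
    refine Finset.sum_congr rfl fun W _ => ?_
    have hm : (dif (Zf e W)).map (LinearMap.fst (ZMod 2) V V) = dif fun i => e.2 (Sum.inr i) :=
      dif_map (Zf e W)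
    have hm' : Gm ((dif (Zf e W)).map (LinearMap.fst (ZMod 2) V V)) ↔
        Gm (dif fun i => e.2 (Sum.inr i)) := by rw [hm]
    have h2 : (∀ z ∈ dif (Zf e W), D.ω z.2 z.1 = 0) →
        Nat.card (dif (Zf e W)) ≤ Nat.card V := fun a3 =>
      (hORT V ι D.ω hs.alt nd (Zf e W) (fun i j => a3 _
        ((dif_le (Zf e W) _).1 le_rfl i j))).2
    rw [← Nat.card_eq_fintype_card (α := V)]
    exact key_if _ _ _ _ (e ∈ EU D b) _ _ _ _ _ (sg (Gx D b e W)) h2 hm' Iff.rfl Iff.rfl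
      Iff.rfl Iff.rfl
  rw [h1]
  exact tt_le D b _ fun Λ hΛ => hΛ.2

end one

section fam

variable {s U ι F : Type} [Fintype s] [Fintype U] [Fintype ι] [LinearOrder ι] [Fintype F]
  {V : F → Type} [∀ f, AddCommGroup (V f)] [∀ f, Module (ZMod 2) (V f)] [∀ f, Fintype (V f)]

/-- the families of the elements -/
abbrev XX (s : Type) (V : F → Type) (A : F → U → Prop) (B : F → ι → Prop) : Type :=
  ∀ f, (s → V f) × ({u // A f u} ⊕ {i // B f i} → V f)

/-- the families of the dual elements -/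
abbrev YY (V : F → Type) (B : F → ι → Prop) : Type := ∀ f, {i // B f i} → V f

/-- the family of the values -/
def ZZ {A : F → U → Prop} {B : F → ι → Prop} (e : XX s V A B) (W : YY V B) :
    ∀ f, {i // B f i} → V f × V f := fun f => Zf (e f) (W f)

theorem sum_cnt (hPF : S_PROBF) (t₀ : s) (D : ∀ f, Dj s (V f)) (hs : ∀ f, (D f).s₀ = t₀)
    (hsym : ∀ f, (D f).Sym) (nd : ∀ f x, (∀ y, (D f).ω x y = 0) → x = 0) (b : Bk s U ι)
    (A : F → U → Prop) (B : F → ι → Prop) (Gm : ∀ f, Submodule (ZMod 2) (V f) → Prop) :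
    (∑ α : prs (univ : Finset ι) → ZMod 2,
        ∏ f, (cnt (D f) (sb b (A f) (B f)) (Gm f) (ra (B f) α) : ℝ)) *
      ∏ f, (Fintype.card (V f) : ℝ) ^ Nat.card {i // B f i} =
    2 ^ (prs (univ : Finset ι)).card * ∑ e : XX s V A B, ∑ W : YY V B,
      (∏ f, gg (D f) (sb b (A f) (B f)) (Gm f) (e f)) *
        (if Unl (fun f => (D f).ω) B (ZZ e W) then
          ∏ f, sg (Gx (D f) (sb b (A f) (B f)) (e f) (W f)) else 0) := by
  have h1 : ∀ α : prs (univ : Finset ι) → ZMod 2,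
      ∏ f, (cnt (D f) (sb b (A f) (B f)) (Gm f) (ra (B f) α) : ℝ) =
      ∑ e : XX s V A B, (∏ f, gg (D f) (sb b (A f) (B f)) (Gm f) (e f)) *
        (if ∀ f, ∀ i : {i // B f i}, rowL (D f) ((sb b (A f) (B f)).N t₀ (ra (B f) α))
          (sb b (A f) (B f)).h (e f) (Sum.inr i) = 0 then (1 : ℝ) else 0) := by
    intro α
    have hc : ∀ f, (cnt (D f) (sb b (A f) (B f)) (Gm f) (ra (B f) α) : ℝ) =
        ∑ x : (s → V f) × ({u // A f u} ⊕ {i // B f i} → V f),
          gg (D f) (sb b (A f) (B f)) (Gm f) x *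
          (if ∀ i : {i // B f i}, rowL (D f) ((sb b (A f) (B f)).N t₀ (ra (B f) α))
            (sb b (A f) (B f)).h x (Sum.inr i) = 0 then (1 : ℝ) else 0) := by
      intro f
      rw [cnt_eq, hs]
      exact Finset.sum_congr (by ext; simp) fun _ _ => rfl
    simp only [hc]
    rw [prod_sum_fam]
    refine Finset.sum_congr rfl fun e _ => ?_
    rw [Finset.prod_mul_distrib, Finset.prod_boole]
    simp only [Finset.mem_univ, true_imp_iff]
  simp only [h1]
  rw [Finset.sum_comm, Finset.sum_mul, Finset.mul_sum]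
  refine Finset.sum_congr rfl fun e _ => ?_
  rw [← Finset.mul_sum]
  have h2 : ∑ α : prs (univ : Finset ι) → ZMod 2,
      (if ∀ f, ∀ i : {i // B f i}, rowL (D f) ((sb b (A f) (B f)).N t₀ (ra (B f) α))
          (sb b (A f) (B f)).h (e f) (Sum.inr i) = 0 then (1 : ℝ) else 0) =
      (((univ : Finset (prs (univ : Finset ι) → ZMod 2)).filter fun α =>
        ∀ f, ∀ i : {i // B f i}, rowL (D f) ((sb b (A f) (B f)).N t₀ (ra (B f) α))
          (sb b (A f) (B f)).h (e f) (Sum.inr i) = 0).card : ℝ) := by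
    rw [Finset.card_filter]
    push_cast
    rfl
  rw [h2, mul_assoc, hPF s U ι F V t₀ D hs hsym nd b A B e, ← Finset.mul_sum]
  have h3 : ∀ W : YY V B, sg (∑ f, ∑ i, (D f).ω (W f i) (rowL (D f) ((sb b (A f) (B f)).N t₀ 0)
        (sb b (A f) (B f)).h (e f) (Sum.inr i))) =
      ∏ f, sg (Gx (D f) (sb b (A f) (B f)) (e f) (W f)) := by
    intro W
    rw [sg_sum]
    unfold Gx
    simp only [hs]
  simp only [h3]
  unfold ZZ Zf
  ring

theorem prod_ite_all (p : F → Prop) (a : F → ℝ) :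
    ∏ f, (if p f then a f else 0) = if ∀ f, p f then ∏ f, a f else 0 := by
  by_cases h : ∀ f, p f
  · rw [if_pos h]
    exact Finset.prod_congr rfl fun f _ => if_pos (h f)
  · rw [if_neg h]
    push Not at h
    obtain ⟨f, hf⟩ := h
    exact Finset.prod_eq_zero (Finset.mem_univ f) (if_neg hf)

theorem prod_tm (D : ∀ f, Dj s (V f)) (b : Bk s U ι) (A : F → U → Prop) (B : F → ι → Prop)
    (Gm : ∀ f, Submodule (ZMod 2) (V f) → Prop) :
    ∏ f, tm (D f) (sb b (A f) (B f)) (Gm f) =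
      ∑ e : XX s V A B, ∑ W : YY V B, (∏ f, gg (D f) (sb b (A f) (B f)) (Gm f) (e f)) *
        (if ∀ f, Sg (D f) (ZZ e W f) then
          ∏ f, sg (Gx (D f) (sb b (A f) (B f)) (e f) (W f)) else 0) := by
  have hT : ∀ f, tm (D f) (sb b (A f) (B f)) (Gm f) =
      ∑ x : (s → V f) × ({u // A f u} ⊕ {i // B f i} → V f), ∑ w : {i // B f i} → V f,
        gg (D f) (sb b (A f) (B f)) (Gm f) x *
        (if Sg (D f) (Zf x w) then sg (Gx (D f) (sb b (A f) (B f)) x w) else 0) := by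
    intro f
    unfold tm
    refine Finset.sum_congr (by ext; simp) fun _ _ => ?_
    exact Finset.sum_congr (by ext; simp) fun _ _ => rfl
  simp only [hT]
  rw [prod_sum_fam]
  refine Finset.sum_congr rfl fun e _ => ?_
  rw [prod_sum_fam]
  refine Finset.sum_congr rfl fun W _ => ?_
  rw [Finset.prod_mul_distrib, prod_ite_all]
  rfl

/-- the unlinked families which are not full -/
def Bad {Cc : Type} (ω : ∀ f, V f →ₗ[ZMod 2] V f →ₗ[ZMod 2] ZMod 2) (I : F → Finset Cc)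
    (B : F → ι → Prop) (col : ι → Cc) (Z : ∀ f, {i // B f i} → V f × V f) : Prop :=
  Unl ω B Z ∧ ¬ Full I B col Z

theorem diff_le {Cc : Type} [Fintype Cc] (hUNL : S_UNL) (D : ∀ f, Dj s (V f))
    (hsym : ∀ f, (D f).Sym) (nd : ∀ f x, (∀ y, (D f).ω x y = 0) → x = 0) (b : Bk s U ι)
    (A : F → U → Prop) (B : F → ι → Prop) (Gm : ∀ f, Submodule (ZMod 2) (V f) → Prop)
    (I : F → Finset Cc) (hI : Function.Injective I) (hI' : ∀ f, (I f).Nonempty) (col : ι → Cc)
    (hB : ∀ f i, B f i ↔ col i ∈ I f) :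
    |(∑ e : XX s V A B, ∑ W : YY V B,
      (∏ f, gg (D f) (sb b (A f) (B f)) (Gm f) (e f)) *
        (if Unl (fun f => (D f).ω) B (ZZ e W) then
          ∏ f, sg (Gx (D f) (sb b (A f) (B f)) (e f) (W f)) else 0)) -
      ∏ f, tm (D f) (sb b (A f) (B f)) (Gm f)| ≤
    ∑ e : XX s V A B, ∑ W : YY V B,
      if Bad (fun f => (D f).ω) I B col (ZZ e W) then (1 : ℝ) else 0 := by
  rw [prod_tm, ← Finset.sum_sub_distrib]
  refine (Finset.abs_sum_le_sum_abs _ _).trans (Finset.sum_le_sum fun e _ => ?_)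
  rw [← Finset.sum_sub_distrib]
  refine (Finset.abs_sum_le_sum_abs _ _).trans (Finset.sum_le_sum fun W _ => ?_)
  rw [← mul_sub, abs_mul]
  have h1 : |∏ f, gg (D f) (sb b (A f) (B f)) (Gm f) (e f)| ≤ 1 := by
    rw [Finset.abs_prod]
    refine Finset.prod_le_one (fun f _ => abs_nonneg _) fun f _ => ?_
    rw [abs_of_nonneg (gg_zero_or_one _ _ _ _).1]
    exact (gg_zero_or_one _ _ _ _).2
  have h2 : |∏ f, sg (Gx (D f) (sb b (A f) (B f)) (e f) (W f))| = 1 := by
    rw [Finset.abs_prod]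
    exact Finset.prod_eq_one fun f _ => abs_sg _
  have h3 : (∀ f, Sg (D f) (ZZ e W f)) → Unl (fun f => (D f).ω) B (ZZ e W) := by
    intro h i j
    unfold lk
    refine Finset.sum_eq_zero fun f _ => ?_
    by_cases hij : B f i ∧ B f j
    · rw [dif_pos hij]
      exact (h f).1 _ (Submodule.subset_span ⟨(⟨i, hij.1⟩, ⟨j, hij.2⟩), rfl⟩)
    · rw [dif_neg hij]
  have h4 : Unl (fun f => (D f).ω) B (ZZ e W) → Full I B col (ZZ e W) →
      ∀ f, Sg (D f) (ZZ e W f) := by
    intro hu hf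
    exact hUNL F ι Cc V (fun f => (D f).ω) (fun f => (hsym f).alt) nd I hI hI' col B hB _ hu hf
  refine (mul_le_of_le_one_left (abs_nonneg _) h1).trans ?_
  by_cases a1 : Unl (fun f => (D f).ω) B (ZZ e W)
  · by_cases a2 : Full I B col (ZZ e W)
    · rw [if_pos a1, if_pos (h4 a1 a2), sub_self, abs_zero]
      split_ifs <;> norm_num
    · rw [if_pos a1, if_pos (show Bad (fun f => (D f).ω) I B col (ZZ e W) from ⟨a1, a2⟩)]
      by_cases a3 : ∀ f, Sg (D f) (ZZ e W f)
      · rw [if_pos a3, sub_self, abs_zero]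
        norm_num
      · rw [if_neg a3, sub_zero, h2]
  · rw [if_neg a1, if_neg (fun h => a1 (h3 h)), sub_self, abs_zero]
    split_ifs <;> norm_num

theorem count_le {A : F → U → Prop} {B : F → ι → Prop}
    (P : (∀ f, {i // B f i} → V f × V f) → Prop) :
    ∑ e : XX s V A B, ∑ W : YY V B, (if P (ZZ e W) then (1 : ℝ) else 0) ≤
      (∏ f, (Fintype.card (V f) : ℝ)) ^ (Fintype.card s + Fintype.card U) *
        (Nat.card {Z : ∀ f, {i // B f i} → V f × V f // P Z} : ℝ) := by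
  have h1 : ∑ e : XX s V A B, ∑ W : YY V B, (if P (ZZ e W) then (1 : ℝ) else 0) =
      (Nat.card {x : XX s V A B × YY V B // P (ZZ x.1 x.2)} : ℝ) := by
    rw [Nat.card_eq_fintype_card, Fintype.card_subtype, Finset.card_filter]
    push_cast
    rw [Fintype.sum_prod_type]
  rw [h1]
  have h2 : Nat.card {x : XX s V A B × YY V B // P (ZZ x.1 x.2)} ≤
      Nat.card ((∀ f, (s → V f) × ({u // A f u} → V f)) ×
        {Z : ∀ f, {i // B f i} → V f × V f // P Z}) := by
    refine Nat.card_le_card_of_injective (fun x => (fun f => ((x.1.1 f).1,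
      fun u => (x.1.1 f).2 (Sum.inl u)), ⟨ZZ x.1.1 x.1.2, x.2⟩)) ?_
    intro x y hxy
    have e1 := congrArg Prod.fst hxy
    have e2 := congrArg (fun z => z.2.1) hxy
    simp only at e1 e2
    refine Subtype.ext (Prod.ext ?_ ?_)
    · funext f
      have e3 := congrFun e1 f
      have e4 := congrFun e2 f
      have e5 := (Prod.mk.inj e3).1
      have e6 := (Prod.mk.inj e3).2
      refine Prod.ext e5 ?_
      funext p
      rcases p with u | i
      · exact congrFun e6 u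
      · exact congrArg Prod.fst (congrFun e4 i)
    · funext f i
      exact congrArg Prod.snd (congrFun (congrFun e2 f) i)
  have h3 : (Nat.card (∀ f, (s → V f) × ({u // A f u} → V f)) : ℝ) ≤
      (∏ f, (Fintype.card (V f) : ℝ)) ^ (Fintype.card s + Fintype.card U) := by
    rw [Nat.card_pi]
    push_cast
    rw [← Finset.prod_pow]
    refine Finset.prod_le_prod (fun f _ => Nat.cast_nonneg _) fun f _ => ?_
    rw [Nat.card_prod, Nat.card_fun, Nat.card_fun, Nat.card_eq_fintype_card,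
      Nat.card_eq_fintype_card, Nat.card_eq_fintype_card]
    push_cast
    rw [pow_add]
    have h4 : (1 : ℝ) ≤ (Fintype.card (V f) : ℝ) := by
      exact_mod_cast Fintype.card_pos
    refine mul_le_mul_of_nonneg_left (pow_le_pow_right₀ h4 ?_) (by positivity)
    exact Fintype.card_subtype_le _
  have h5 : (Nat.card {x : XX s V A B × YY V B // P (ZZ x.1 x.2)} : ℝ) ≤
      ((Nat.card ((∀ f, (s → V f) × ({u // A f u} → V f)) ×
        {Z : ∀ f, {i // B f i} → V f × V f // P Z}) : ℕ) : ℝ) := by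
    exact_mod_cast h2
  refine h5.trans ?_
  rw [Nat.card_prod]
  push_cast
  exact mul_le_mul_of_nonneg_right h3 (Nat.cast_nonneg _)

/-- the restricted blocks satisfy the conditions -/
theorem ok_sb {Cc : Type} {b : Bk s U ι} {col : ι → Cc} {t₀ : s} {R : ℕ} (hb : POk b col t₀ R)
    {ρ : s → ZMod 2} {A : U → Prop} {B : ι → Prop} (c : Cc) (hc : ∀ i, col i = c → B i)
    (ht : ∑ p, (sb b A B).h p = ρ) {R' : ℕ} (hR : R' ≤ R) : (sb b A B).Ok t₀ ρ R' := by
  refine ⟨fun u u' h => hb.rU _ _ fun h' => h (Subtype.ext h'), fun u i => hb.rJ _ _, ?_, ?_, ht⟩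
  · intro μ hμ
    obtain ⟨u₀, hu₀⟩ := Function.ne_iff.1 hμ
    obtain ⟨i, hi1, hi2, hi3⟩ := hb.nd c (fun u => if h : A u then μ ⟨u, h⟩ else 0) (by
      intro h
      have h1 := congrFun h u₀.1
      rw [dif_pos u₀.2] at h1
      exact hu₀ h1)
    refine ⟨⟨i, hc i hi1⟩, hi2, ?_⟩
    intro h
    refine hi3 (Eq.trans ?_ h)
    change _ = ∑ u : {u // A u}, μ u * b.C i u.1
    symm
    have h1 : ∀ u : {u // A u}, μ u * b.C i u.1 =
        (fun u : U => (if h : A u then μ ⟨u, h⟩ else 0) * b.C i u) u.1 := by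
      intro u
      simp only
      rw [dif_pos u.2]
    rw [Finset.sum_congr rfl fun u _ => h1 u]
    rw [← Finset.sum_subtype (univ.filter A) (fun u => by simp)
      (fun u : U => (if h : A u then μ ⟨u, h⟩ else 0) * b.C i u)]
    refine Finset.sum_subset (Finset.filter_subset _ _) fun u _ hu => ?_
    have hu' : ¬ A u := fun h => hu (Finset.mem_filter.2 ⟨Finset.mem_univ _, h⟩)
    rw [dif_neg hu', zero_mul]
  · intro φ
    have h1 := hb.many c φ
    have h2 : (univ.filter fun i => col i = c ∧ b.hJ i = φ).card ≤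
        (univ.filter fun i : {i // B i} => (sb b A B).hJ i = φ).card := by
      refine Finset.card_le_card_of_surjOn (fun i : {i // B i} => i.1) ?_
      intro i hi
      rw [Finset.mem_coe, Finset.mem_filter] at hi
      refine ⟨⟨i, hc i hi.2.1⟩, ?_, rfl⟩
      rw [Finset.mem_coe, Finset.mem_filter]
      exact ⟨Finset.mem_univ _, hi.2.2⟩
    refine le_trans ?_ (h1.trans h2)
    exact Nat.mul_le_mul hR (Nat.add_le_add_right (Fintype.card_subtype_le _) 1)

end fam

/-- the error is small -/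
theorem small {w K η q : ℝ} (hw : 1 ≤ w) (hK : 0 ≤ K) (hη : 0 < η) (hq0 : 0 ≤ q) (hq1 : q < 1)
    (a : ℕ) : ∃ R : ℕ, ∀ R', R ≤ R' → ∀ u m : ℕ, R' * (u + 1) ≤ m → w ^ (a + u) * K * q ^ m ≤ η := by
  have hw0 : 0 < w := by linarith
  have hpos : 0 < min (1 / w) (η / (w ^ a * (K + 1))) := by positivity
  obtain ⟨R, hR⟩ := exists_pow_lt_of_lt_one hpos hq1
  refine ⟨R, fun R' hR' u m hm => ?_⟩
  have h1 : q ^ R' ≤ q ^ R := pow_le_pow_of_le_one hq0 hq1.le hR'
  have h2 : q ^ R' ≤ 1 / w := h1.trans (hR.le.trans (min_le_left _ _))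
  have h3 : q ^ R' ≤ η / (w ^ a * (K + 1)) := h1.trans (hR.le.trans (min_le_right _ _))
  have h4 : q ^ m ≤ q ^ (R' * (u + 1)) := pow_le_pow_of_le_one hq0 hq1.le hm
  have h5 : q ^ (R' * (u + 1)) = (q ^ R') ^ u * q ^ R' := by
    rw [pow_mul, pow_succ]
  have h6 : (w * q ^ R') ^ u ≤ 1 := by
    refine pow_le_one₀ (by positivity) ?_
    calc w * q ^ R' ≤ w * (1 / w) := mul_le_mul_of_nonneg_left h2 hw0.le
      _ = 1 := by field_simp
  calc w ^ (a + u) * K * q ^ m ≤ w ^ (a + u) * K * ((q ^ R') ^ u * q ^ R') := by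
        rw [← h5]
        exact mul_le_mul_of_nonneg_left h4 (by positivity)
    _ = w ^ a * K * q ^ R' * (w * q ^ R') ^ u := by
        rw [mul_pow, pow_add]
        ring
    _ ≤ w ^ a * K * q ^ R' * 1 := mul_le_mul_of_nonneg_left h6 (by positivity)
    _ = w ^ a * K * q ^ R' := mul_one _
    _ ≤ w ^ a * K * (η / (w ^ a * (K + 1))) := mul_le_mul_of_nonneg_left h3 (by positivity)
    _ = η * (K / (K + 1)) := by
        have : w ^ a ≠ 0 := by positivity
        have : K + 1 ≠ 0 := by positivity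
        field_simp
    _ ≤ η * 1 := by
        refine mul_le_mul_of_nonneg_left ?_ hη.le
        rw [div_le_one (by positivity)]
        linarith
    _ = η := mul_one _

/-- monotonicity of the conditions -/
theorem ok_mono {s U ι : Type} [Fintype s] [Fintype U] [Fintype ι] [LinearOrder ι]
    {b : Bk s U ι} {t₀ : s} {ρ : s → ZMod 2} {R R' : ℕ} (hb : b.Ok t₀ ρ R) (h : R' ≤ R) :
    b.Ok t₀ ρ R' :=
  ⟨hb.rU, hb.rJ, hb.nd, fun φ => (Nat.mul_le_mul_right _ h).trans (hb.many φ), hb.tot⟩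

/-- the mean for one form -/
theorem one_close (hLAM2 : S_LAM2) (hPROB : S_PROB) (hNMAX : S_NMAX) (hORT : S_ORT)
    {s V : Type} [Fintype s] [AddCommGroup V] [Module (ZMod 2) V] [Fintype V]
    (D : Dj s V) (ρ : s → ZMod 2) (hD : D.Ok ρ) (Gm : Submodule (ZMod 2) V → Prop)
    (𝒮 : Finset (V →ₗ[ZMod 2] V))
    (h𝒮 : ∀ S ∈ 𝒮, (∀ φ x, S (D.T φ x) = D.T φ (S x)) ∧ (∀ x, D.ω (S x) x = 0) ∧
      (∀ y ∈ D.𝓛, (D.tw S).q y = 0) ∧ Gm ⊤)
    (hΛ : ∀ Λ : Submodule (ZMod 2) (V × V), (∀ z ∈ Λ, D.ω z.2 z.1 = 0) → Nat.card Λ = Nat.card V →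
      Gm (Λ.map (LinearMap.fst (ZMod 2) V V)) →
      (∀ φ : s → ZMod 2, ∀ z ∈ Λ, (D.T φ z.1, D.T φ z.2) ∈ Λ) →
      ∃ S ∈ 𝒮, ∀ z, z ∈ Λ ↔ z.2 = S z.1) {δ : ℝ} (hδ : 0 < δ) :
    ∃ R : ℕ, ∀ (U ι : Type) [Fintype U] [Fintype ι] [LinearOrder ι]
    (b : Bk s U ι), b.Ok D.s₀ ρ R →
    |tm D b Gm / (Fintype.card V : ℝ) ^ Fintype.card ι - (Nat.card V : ℝ) * (𝒮.card : ℝ)| ≤ δ := by
  obtain ⟨R1, -, hR1⟩ := hLAM2 s V D ρ hD Gm 𝒮 h𝒮 hΛ (δ / 2) (by positivity)
  have hv1 : (1 : ℝ) ≤ (Fintype.card V : ℝ) := by exact_mod_cast Fintype.card_pos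
  obtain ⟨R2, hR2⟩ := small (w := (Fintype.card V : ℝ))
    (K := (Nat.card (Submodule (ZMod 2) (V × V)) : ℝ) * (Fintype.card V : ℝ) ^ 2) (η := δ / 2)
    (q := 1 / 2) hv1 (by positivity) (by positivity) (by norm_num) (by norm_num) (Fintype.card s)
  refine ⟨max R1 R2, fun U ι _ _ _ b hb => ?_⟩
  have hvι : 0 < (Fintype.card V : ℝ) ^ Fintype.card ι := by positivity
  have h1 := hR1 U ι b (ok_mono hb (le_max_left _ _))
  have h2 := cnt_sum hPROB hORT D hD.toSym hD.nd b Gm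
  have h3 : (∑ α : prs (univ : Finset ι) → ZMod 2, (cnt D b Gm α : ℝ)) /
      2 ^ (prs (univ : Finset ι)).card = tt D b (QQ D Gm) /
        (Fintype.card V : ℝ) ^ Fintype.card ι := by
    rw [div_eq_div_iff (by positivity) hvι.ne', h2, mul_comm]
    rfl
  rw [h3] at h1
  have h4 := tm_close hORT D hD.toSym hD.nd b Gm
  have h5 := n0_le (s := s) (V := V) (U := U) (ι := ι) hNMAX
  have hι : max R1 R2 * (Fintype.card U + 1) ≤ Fintype.card ι :=
    (hb.many 0).trans (Finset.card_le_univ _)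
  have h6 := hR2 (max R1 R2) (le_max_right _ _) (Fintype.card U) (Fintype.card ι) hι
  have h7 : |tt D b (QQ D Gm) - tm D b Gm| / (Fintype.card V : ℝ) ^ Fintype.card ι ≤ δ / 2 := by
    rw [div_le_iff₀ hvι]
    refine h4.trans (h5.trans ?_)
    calc _ = (Fintype.card V : ℝ) ^ (Fintype.card s + Fintype.card U) *
          ((Nat.card (Submodule (ZMod 2) (V × V)) : ℝ) * (Fintype.card V : ℝ) ^ 2) *
          (1 / 2) ^ Fintype.card ι * (Fintype.card V : ℝ) ^ Fintype.card ι := by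
          rw [pow_add, div_pow, div_pow, one_pow]
          ring
      _ ≤ _ := mul_le_mul_of_nonneg_right h6 hvι.le
  have h8 : |tt D b (QQ D Gm) / (Fintype.card V : ℝ) ^ Fintype.card ι -
      tm D b Gm / (Fintype.card V : ℝ) ^ Fintype.card ι| ≤ δ / 2 := by
    rw [← sub_div, abs_div, abs_of_pos hvι]
    exact h7
  rw [abs_le] at h1 h8 ⊢
  constructor <;> linarith [h1.1, h1.2, h8.1, h8.2]

/-- continuity of the product -/
theorem prod_close {F : Type} [Fintype F] (L : F → ℝ) {ε : ℝ} (hε : 0 < ε) :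
    ∃ δ : ℝ, 0 < δ ∧ ∀ a : F → ℝ, (∀ f, |a f - L f| ≤ δ) → |∏ f, a f - ∏ f, L f| ≤ ε := by
  have hc : Continuous fun a : F → ℝ => ∏ f, a f :=
    continuous_finsetProd _ fun f _ => continuous_apply f
  obtain ⟨δ, hδ, h⟩ := Metric.continuous_iff.1 hc L ε hε
  refine ⟨δ / 2, by positivity, fun a ha => ?_⟩
  have h1 : dist a L < δ := by
    refine lt_of_le_of_lt ((dist_pi_le_iff (by positivity)).2 fun f => ?_)
      (show δ / 2 < δ by linarith)
    rw [Real.dist_eq]
    exact ha f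
  have h2 := h a h1
  rw [Real.dist_eq] at h2
  exact h2.le

/-- **Job LD-LAMF.** -/
theorem t_LAMF (h1 : S_PROBF) (h2 : S_NF) (h3 : S_UNL) (h4 : S_LAM2) (h5 : S_PROB) (h6 : S_NMAX)
    (h7 : S_ORT) (h8 : S_EU) : S_LAMF := by
  intro s F Cc _ _ _ V _ _ _ I hI hI' t₀ ρ D hs hD Gm 𝒮 h𝒮 hΛ ε hε
  have hVf : ∀ f, Fintype (V f) := fun f => Fintype.ofFinite _
  obtain ⟨δ, hδ, hcont⟩ := prod_close (fun f => (Nat.card (V f) : ℝ) * ((𝒮 f).card : ℝ))
    (show 0 < ε / 2 by positivity)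
  choose R1 hR1 using fun f => one_close h4 h5 h6 h7 (D f) (ρ f) (hD f) (Gm f) (𝒮 f) (h𝒮 f) (hΛ f) hδ
  obtain ⟨K, hK, hNF⟩ := h2 F Cc V (fun f => (D f).ω) (fun f => (hD f).alt) (fun f => (hD f).nd) I
  obtain ⟨w, hw⟩ : ∃ w : ℝ, w = ∏ f, (Fintype.card (V f) : ℝ) := ⟨_, rfl⟩
  have hv1 : ∀ f, (1 : ℝ) ≤ (Fintype.card (V f) : ℝ) := fun f => by
    exact_mod_cast Fintype.card_pos
  have hw1 : 1 ≤ w := by
    rw [hw]
    calc (1 : ℝ) = ∏ f : F, (1 : ℝ) := by rw [Finset.prod_const_one]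
      _ ≤ _ := Finset.prod_le_prod (fun _ _ => zero_le_one) fun f _ => hv1 f
  have hvc : ∀ c, 0 < (vc V I c : ℝ) := by
    intro c
    unfold vc
    rw [Nat.cast_pos]
    refine Finset.prod_pos fun f _ => ?_
    split_ifs
    · exact Nat.card_pos
    · exact one_pos
  have hvc1 : ∀ c, 1 ≤ (vc V I c : ℝ) := by
    intro c
    have h := hvc c
    rw [Nat.cast_pos] at h
    exact_mod_cast h
  have hη : 0 < ε / 2 / ((Fintype.card Cc : ℝ) + 1) := by positivity
  choose R2 hR2 using fun c => small (w := w) (K := K) (η := ε / 2 / ((Fintype.card Cc : ℝ) + 1))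
    (q := 1 - 1 / (vc V I c : ℝ)) hw1 hK hη (by
      rw [sub_nonneg, div_le_one (hvc c)]
      exact hvc1 c) (by
      have := hvc c
      have h : 0 < 1 / (vc V I c : ℝ) := by positivity
      linarith) (Fintype.card s)
  obtain ⟨R, hR⟩ : ∃ R : ℕ, R = 1 + ∑ f, R1 f + ∑ c, R2 c := ⟨_, rfl⟩
  have hRR1 : ∀ f, R1 f ≤ R := fun f => by
    have := Finset.single_le_sum (f := R1) (fun _ _ => Nat.zero_le _) (Finset.mem_univ f)
    omega
  have hRR2 : ∀ c, R2 c ≤ R := fun c => by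
    have := Finset.single_le_sum (f := R2) (fun _ _ => Nat.zero_le _) (Finset.mem_univ c)
    omega
  refine ⟨R, by omega, ?_⟩
  intro U ι _ _ _ b col A B hB hb ht
  obtain ⟨W, hW⟩ : ∃ W : ℝ, W = ∏ f, (Fintype.card (V f) : ℝ) ^ Nat.card {i // B f i} := ⟨_, rfl⟩
  have hW0 : 0 < W := by
    rw [hW]
    exact Finset.prod_pos fun f _ => pow_pos (by linarith [hv1 f]) _
  -- the factors
  have hfac : ∀ f, |tm (D f) (sb b (A f) (B f)) (Gm f) /
      (Fintype.card (V f) : ℝ) ^ Nat.card {i // B f i} -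
        (Nat.card (V f) : ℝ) * ((𝒮 f).card : ℝ)| ≤ δ := by
    intro f
    obtain ⟨c, hc⟩ := hI' f
    have hok : (sb b (A f) (B f)).Ok t₀ (ρ f) (R1 f) :=
      ok_sb hb c (fun i hi => (hB f i).2 (by rw [hi]; exact hc)) (ht f) (hRR1 f)
    rw [← hs f] at hok
    rw [Nat.card_eq_fintype_card]
    exact hR1 f _ _ _ hok
  have hprod := hcont _ hfac
  rw [Finset.prod_div_distrib, ← hW] at hprod
  -- the sum
  have hsum := sum_cnt h1 t₀ D hs (fun f => (hD f).toSym) (fun f => (hD f).nd) b A B Gm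
  rw [← hW] at hsum
  have hdiff := diff_le h3 D (fun f => (hD f).toSym) (fun f => (hD f).nd) b A B Gm I hI hI' col hB
  have hcount := count_le (V := V) (s := s) (A := A) (B := B)
    (Bad (fun f => (D f).ω) I B col)
  have hnf := hNF ι col B hB
  obtain ⟨T, hT⟩ : ∃ T : ℝ, T = ∑ e : XX s V A B, ∑ W : YY V B,
      (∏ f, gg (D f) (sb b (A f) (B f)) (Gm f) (e f)) *
        (if Unl (fun f => (D f).ω) B (ZZ e W) then
          ∏ f, sg (Gx (D f) (sb b (A f) (B f)) (e f) (W f)) else 0) := ⟨_, rfl⟩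
  rw [← hT] at hsum hdiff
  have hWn : ∏ f, (Nat.card (V f) : ℝ) ^ Nat.card {i // B f i} = W := by
    rw [hW]
    exact Finset.prod_congr rfl fun f _ => by rw [Nat.card_eq_fintype_card (α := V f)]
  rw [hWn] at hnf
  have herr : |T - ∏ f, tm (D f) (sb b (A f) (B f)) (Gm f)| / W ≤ ε / 2 := by
    rw [div_le_iff₀ hW0]
    refine hdiff.trans (hcount.trans ?_)
    rw [← hw]
    have e1 : ∀ c, w ^ (Fintype.card s + Fintype.card U) * K *
        (1 - 1 / (vc V I c : ℝ)) ^ (univ.filter fun i => col i = c).card ≤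
        ε / 2 / ((Fintype.card Cc : ℝ) + 1) := by
      intro c
      refine hR2 c R (hRR2 c) (Fintype.card U) _ ((hb.many c 0).trans ?_)
      exact Finset.card_le_card fun i hi => by
        rw [Finset.mem_filter] at hi ⊢
        exact ⟨hi.1, hi.2.1⟩
    have e2 : ∑ c, w ^ (Fintype.card s + Fintype.card U) * K *
        (1 - 1 / (vc V I c : ℝ)) ^ (univ.filter fun i => col i = c).card ≤ ε / 2 := by
      refine (Finset.sum_le_card_nsmul _ _ _ fun c _ => e1 c).trans ?_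
      rw [nsmul_eq_mul, Finset.card_univ]
      have e3 : (Fintype.card Cc : ℝ) / ((Fintype.card Cc : ℝ) + 1) ≤ 1 := by
        rw [div_le_one (by positivity)]
        linarith
      calc (Fintype.card Cc : ℝ) * (ε / 2 / ((Fintype.card Cc : ℝ) + 1)) =
            ε / 2 * ((Fintype.card Cc : ℝ) / ((Fintype.card Cc : ℝ) + 1)) := by ring
        _ ≤ ε / 2 * 1 := mul_le_mul_of_nonneg_left e3 (by positivity)
        _ = ε / 2 := mul_one _
    have hwp : 0 ≤ w ^ (Fintype.card s + Fintype.card U) := by positivity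
    refine (mul_le_mul_of_nonneg_left hnf hwp).trans ?_
    calc w ^ (Fintype.card s + Fintype.card U) * (K * W *
          ∑ c, (1 - 1 / (vc V I c : ℝ)) ^ (univ.filter fun i => col i = c).card) =
          (∑ c, w ^ (Fintype.card s + Fintype.card U) * K *
            (1 - 1 / (vc V I c : ℝ)) ^ (univ.filter fun i => col i = c).card) * W := by
          rw [← Finset.mul_sum]
          ring
      _ ≤ ε / 2 * W := mul_le_mul_of_nonneg_right e2 hW0.le
  have hmean : (∑ α : prs (univ : Finset ι) → ZMod 2,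
        ∏ f, (cnt (D f) (sb b (A f) (B f)) (Gm f) (ra (B f) α) : ℝ)) /
        2 ^ (prs (univ : Finset ι)).card = T / W := by
    rw [div_eq_div_iff (by positivity) hW0.ne', hsum, mul_comm]
  rw [hmean]
  have herr' : |T / W - (∏ f, tm (D f) (sb b (A f) (B f)) (Gm f)) / W| ≤ ε / 2 := by
    rw [← sub_div, abs_div, abs_of_pos hW0]
    exact herr
  rw [abs_le] at herr' hprod ⊢
  constructor <;> linarith [herr'.1, herr'.2, hprod.1, hprod.2]

end Pool.Agent.Q269.DX.A182L
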