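import Pool.Agent.Q269.DX.LD.StmB
import Pool.Agent.Q269.DX.A223.DIV
import Pool.Agent.Q269.DX.A182L.LAMF
import Pool.Agent.Q269.DX.A154.LAJ

/-!
# Project LD (helper44), job LD-DIVM: all the moments over the families of divisors
(after helper223 and helper299)
-/

set_option autoImplicit false
set_option linter.unusedVariables false
set_option linter.unusedSectionVars false

namespace Pool.Agent.Q269.DX.A182L

open Pool.Agent.Q269.DX.Bs (ze ze_add)

open Finset Module Pool.Agent.Q269.DX.JQ Pool.Agent.Q269.DX.LD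
open Pool.Agent.Q269.DX.Bs (prs)
open Pool.Agent.Q269.DX.A154 (card_UV)
open Pool.Agent.Q269.DX.A223 (POk_comp POk_mono lab inj1 ne1)
open scoped Classical

/-- second moment for real functions -/
theorem cheb2 {Ω T : Type} [Fintype Ω] [Fintype T] (X : Ω → T → ℝ) (good : T → T → Prop)
    (L ε a P c W : ℝ) (hε : 0 < ε) (ha : 0 ≤ a) (hP : 0 ≤ P) (hW : 0 < W)
    (hT : (Fintype.card T : ℝ) ≤ W)
    (hg : ∀ τ τ', good τ τ' → |∑ α, (X α τ - L) * (X α τ' - L)| ≤ a * Fintype.card Ω)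
    (hb : ∀ τ τ', |∑ α, (X α τ - L) * (X α τ' - L)| ≤ P * Fintype.card Ω)
    (h3 : ((univ.filter fun x : T × T => ¬ good x.1 x.2).card : ℝ) * P ≤ c * W ^ 2)
    (h4 : a + c ≤ ε ^ 3) :
    ((univ.filter fun α : Ω => ε * W < |∑ τ, (X α τ - L)|).card : ℝ) ≤ ε * Fintype.card Ω := by
  obtain ⟨n, hn⟩ : ∃ n : ℝ, n = Fintype.card Ω := ⟨_, rfl⟩
  have hn0 : 0 ≤ n := by rw [hn]; positivity
  rw [← hn] at hg hb ⊢
  have hpair : ∀ τ τ', |∑ α, (X α τ - L) * (X α τ' - L)| ≤
      n * a + (if good τ τ' then 0 else n * P) := by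
    intro τ τ'
    by_cases h : good τ τ'
    · rw [if_pos h, add_zero, mul_comm]
      exact hg τ τ' h
    · rw [if_neg h]
      have h1 := hb τ τ'
      have h2 : 0 ≤ n * a := mul_nonneg hn0 ha
      linarith
  have hsec : ∑ α, (∑ τ, (X α τ - L)) ^ 2 ≤ ε ^ 3 * W ^ 2 * n := by
    have e2 : ∑ α, (∑ τ, (X α τ - L)) ^ 2 =
        ∑ z : T × T, ∑ α, (X α z.1 - L) * (X α z.2 - L) := by
      rw [Finset.sum_comm]
      refine Finset.sum_congr rfl fun α _ => ?_
      rw [sq, Finset.sum_mul_sum, ← Finset.univ_product_univ, Finset.sum_product]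
    rw [e2]
    refine (Finset.sum_le_sum fun z _ => (le_abs_self _).trans (hpair z.1 z.2)).trans ?_
    rw [Finset.sum_add_distrib, Finset.sum_const, Finset.card_univ, nsmul_eq_mul]
    have e3 : ∑ z : T × T, (if good z.1 z.2 then 0 else n * P) =
        ((univ.filter fun z : T × T => ¬ good z.1 z.2).card : ℝ) * (n * P) := by
      rw [← nsmul_eq_mul, ← Finset.sum_const, Finset.sum_filter]
      refine Finset.sum_congr rfl fun z _ => ?_
      by_cases h : good z.1 z.2 <;> simp [h]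
    rw [e3, Fintype.card_prod, Nat.cast_mul]
    have h8 : (Fintype.card T : ℝ) * (Fintype.card T : ℝ) ≤ W ^ 2 := by
      rw [sq]; exact mul_le_mul hT hT (by positivity) hW.le
    have h9 : 0 ≤ n * a := by positivity
    calc (Fintype.card T : ℝ) * (Fintype.card T : ℝ) * (n * a) +
          ((univ.filter fun z : T × T => ¬ good z.1 z.2).card : ℝ) * (n * P) =
          (Fintype.card T : ℝ) * (Fintype.card T : ℝ) * (n * a) +
          (((univ.filter fun z : T × T => ¬ good z.1 z.2).card : ℝ) * P) * n := by ring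
      _ ≤ W ^ 2 * (n * a) + (c * W ^ 2) * n := by gcongr
      _ = (a + c) * (W ^ 2 * n) := by ring
      _ ≤ ε ^ 3 * (W ^ 2 * n) := by gcongr
      _ = _ := by ring
  have hch : ((univ.filter fun α : Ω => ε * W < |∑ τ, (X α τ - L)|).card : ℝ) *
      (ε * W) ^ 2 ≤ ∑ α, (∑ τ, (X α τ - L)) ^ 2 := by
    rw [← nsmul_eq_mul, ← Finset.sum_const]
    refine le_trans (Finset.sum_le_sum ?_) (Finset.sum_le_sum_of_subset_of_nonneg
      (Finset.filter_subset _ _) (fun _ _ _ => by positivity))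
    intro α hα
    rw [Finset.mem_filter] at hα
    have h11 := hα.2
    have h12 : 0 ≤ ε * W := by positivity
    rw [← sq_abs (∑ τ, (X α τ - L))]
    exact pow_le_pow_left₀ h12 h11.le 2
  have hfin := hch.trans hsec
  have hpos : 0 < ε ^ 2 * W ^ 2 := by positivity
  have : ((univ.filter fun α : Ω => ε * W < |∑ τ, (X α τ - L)|).card : ℝ) *
      (ε ^ 2 * W ^ 2) ≤ (ε * n) * (ε ^ 2 * W ^ 2) := by
    calc _ = _ := by ring
      _ ≤ _ := hfin
      _ = _ := by ring
  exact le_of_mul_le_mul_right this hpos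

section fac

variable {s κ P : Type} [Fintype s] [Fintype κ] [Fintype P] {V : κ → Type}
  [∀ k, AddCommGroup (V k)] [∀ k, Module (ZMod 2) (V k)] [∀ k, Finite (V k)]

/-- the product of the factors of the moments -/
noncomputable def fac (D : ∀ k, Dj s (V k)) (μ : κ → ℕ) (N : P → P → ZMod 2)
    (h : P → s → ZMod 2) : ℝ :=
  ∏ k, ∏ i ∈ range (μ k), ((Nat.card (Sel (D k) N h) : ℝ) / (Nat.card (V k) : ℝ) - 2 ^ i)

theorem card_DD (h5 : S_PI) (t₀ : s) (ρ : s → ZMod 2) (D : ∀ k, Dj s (V k))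
    (hs : ∀ k, (D k).s₀ = t₀) (hD : ∀ k, (D k).Ok ρ) (m : κ → ℕ) (N : P → P → ZMod 2)
    (h : P → s → ZMod 2) :
    (Nat.card (Sel (DD t₀ D m) N h) : ℝ) = ∏ k, (Nat.card (Sel (D k) N h) : ℝ) ^ m k := by
  have key := (h5 s (Σ k, Fin (m k)) (fun c => V c.1) t₀ ρ (fun c => D c.1)
      (fun c => hs c.1) (fun c => hD c.1)).2 P N h
  have e : Sel (DD t₀ D m) N h ≃ ∀ c : (Σ k, Fin (m k)), Sel (D c.1) N h :=
    { toFun := fun e c => ⟨((fun t => e.1.1 t c), (fun p => e.1.2 p c)), (key e.1).1 e.2 c⟩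
      invFun := fun g => ⟨((fun t c => (g c).1.1 t), (fun p c => (g c).1.2 p)),
        (key _).2 fun c => (g c).2⟩
      left_inv := fun e => rfl
      right_inv := fun g => rfl }
  have h1 : Nat.card (Sel (DD t₀ D m) N h) = ∏ c : (Σ k, Fin (m k)), Nat.card (Sel (D c.1) N h) :=
    (Nat.card_congr e).trans Nat.card_pi
  rw [h1]
  push_cast
  rw [Fintype.prod_sigma]
  refine prod_congr rfl fun k _ => ?_
  change ∏ _x : Fin (m k), (Nat.card (Sel (D k) N h) : ℝ) = _
  rw [Finset.prod_const, Finset.card_univ, Fintype.card_fin]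

theorem one_le_card (D : ∀ k, Dj s (V k)) (N : P → P → ZMod 2) (h : P → s → ZMod 2) (k : κ) :
    (1 : ℝ) ≤ (Nat.card (Sel (D k) N h) : ℝ) := by
  have : Finite (Sel (D k) N h) := inferInstance
  exact_mod_cast (Nat.card_pos : 0 < Nat.card (Sel (D k) N h))

/-- the constant -/
noncomputable def cst (μ : κ → ℕ) : ℝ := ∏ k, ∏ i ∈ range (μ k), (2 : ℝ) ^ (i + 1)

theorem cst_nonneg (μ : κ → ℕ) : 0 ≤ cst μ :=
  Finset.prod_nonneg fun k _ => Finset.prod_nonneg fun i _ => by positivity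

theorem fac_le (D : ∀ k, Dj s (V k)) (μ : κ → ℕ) (N : P → P → ZMod 2) (h : P → s → ZMod 2) :
    |fac D μ N h| ≤ cst μ * ∏ k, (Nat.card (Sel (D k) N h) : ℝ) ^ μ k := by
  unfold fac cst
  rw [Finset.abs_prod, ← Finset.prod_mul_distrib]
  refine Finset.prod_le_prod (fun k _ => abs_nonneg _) fun k _ => ?_
  rw [Finset.abs_prod]
  have h1 := one_le_card D N h k
  have hv : (1 : ℝ) ≤ (Nat.card (V k) : ℝ) := by
    exact_mod_cast (Nat.card_pos : 0 < Nat.card (V k))
  have h2 : (∏ i ∈ range (μ k), (2 : ℝ) ^ (i + 1)) * (Nat.card (Sel (D k) N h) : ℝ) ^ μ k =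
      ∏ i ∈ range (μ k), ((2 : ℝ) ^ (i + 1) * (Nat.card (Sel (D k) N h) : ℝ)) := by
    rw [Finset.prod_mul_distrib, Finset.prod_const, Finset.card_range]
  rw [h2]
  refine Finset.prod_le_prod (fun i _ => abs_nonneg _) fun i _ => ?_
  refine (abs_sub _ _).trans ?_
  rw [abs_of_nonneg (by positivity), abs_of_nonneg (by positivity)]
  have h3 : (Nat.card (Sel (D k) N h) : ℝ) / (Nat.card (V k) : ℝ) ≤
      (Nat.card (Sel (D k) N h) : ℝ) := div_le_self (by linarith) hv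
  have h4 : (1 : ℝ) ≤ 2 ^ i := one_le_pow₀ (by norm_num)
  rw [pow_succ]
  nlinarith

theorem fac_cnt (h4 : S_CNT) {U ι : Type} [Fintype U] [Fintype ι] [LinearOrder ι] (t₀ : s)
    (ρ : s → ZMod 2) (D : ∀ k, Dj s (V k)) (hs : ∀ k, (D k).s₀ = t₀) (hD : ∀ k, (D k).Ok ρ)
    (m : κ → ℕ) (b : Bk s U ι) (hb : b.Ok t₀ ρ 1) (α : prs (univ : Finset ι) → ZMod 2) :
    (cnt (DD t₀ D m) b (GmD V) α : ℝ) =
      (Nat.card (UV V m) : ℝ) * fac D m (b.N t₀ α) b.h := by
  rw [h4 s κ V t₀ ρ D hs hD m U ι b hb α, card_UV]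
  unfold fac
  rw [← prod_mul_distrib]
  refine prod_congr rfl fun k _ => ?_
  have hv : (Nat.card (V k) : ℝ) ≠ 0 := by
    have : 0 < Nat.card (V k) := Nat.card_pos
    positivity
  have h5 : ∀ i ∈ range (m k), (Nat.card (Sel (D k) (b.N t₀ α) b.h) : ℝ) -
      (Nat.card (V k) : ℝ) * 2 ^ i = (Nat.card (V k) : ℝ) *
        ((Nat.card (Sel (D k) (b.N t₀ α) b.h) : ℝ) / (Nat.card (V k) : ℝ) - 2 ^ i) :=
    fun i _ => by
      field_simp
  rw [prod_congr rfl h5, prod_mul_distrib, prod_const, card_range]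

end fac

/-- the mean of the product for several forms -/
theorem fac_mean (h1 : S_LAMF) (h3 : S_SS2) (h4 : S_CNT) (h5 : S_PI) {s F Cc : Type} [Fintype s]
    [Fintype F] [Fintype Cc] (κ : F → Type) [∀ f, Fintype (κ f)] (V : ∀ f, κ f → Type)
    [∀ f k, AddCommGroup (V f k)] [∀ f k, Module (ZMod 2) (V f k)] [∀ f k, Finite (V f k)]
    [∀ f k, Nontrivial (V f k)] (I : F → Finset Cc) (hI : Function.Injective I)
    (hI' : ∀ f, (I f).Nonempty) (t₀ : s) (ρ : F → s → ZMod 2) (D : ∀ f k, Dj s (V f k))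
    (hs : ∀ f k, (D f k).s₀ = t₀) (hD : ∀ f k, (D f k).Ok (ρ f)) (hA : ∀ f, Adj2 (D f))
    (μ : ∀ f, κ f → ℕ) {ε : ℝ} (hε : 0 < ε) : ∃ R : ℕ, 1 ≤ R ∧
    ∀ (U ι : Type) [Fintype U] [Fintype ι] [LinearOrder ι]
    (b : Bk s U ι) (col : ι → Cc) (A : F → U → Prop) (B : F → ι → Prop),
    (∀ f i, B f i ↔ col i ∈ I f) → POk b col t₀ R → (∀ f, ∑ p, (sb b (A f) (B f)).h p = ρ f) →
    |(∑ α : prs (univ : Finset ι) → ZMod 2,
        ∏ f, fac (D f) (μ f) ((sb b (A f) (B f)).N t₀ (ra (B f) α)) (sb b (A f) (B f)).h) -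
      (∏ f, ∏ k, (2 : ℝ) ^ (μ f k * (μ f k + 1) / 2)) * 2 ^ (prs (univ : Finset ι)).card| ≤
      ε * 2 ^ (prs (univ : Finset ι)).card := by
  have hss := fun f => h3 s (κ f) (V f) t₀ (ρ f) (D f) (hs f) (hD f) (hA f) (μ f)
  have hok : ∀ f, (DD t₀ (D f) (μ f)).Ok (ρ f) := fun f =>
    (h5 s (Σ k, Fin (μ f k)) (fun c => V f c.1) t₀ (ρ f) (fun c => D f c.1)
      (fun c => hs f c.1) (fun c => hD f c.1)).1
  obtain ⟨R, hR1, hR⟩ := h1 s F Cc (fun f => UV (V f) (μ f)) I hI hI' t₀ ρ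
    (fun f => DD t₀ (D f) (μ f)) (fun f => rfl) hok (fun f => GmD (V f))
    (fun f => SS (V f) (μ f)) (fun f => (hss f).2.1) (fun f => (hss f).2.2) ε hε
  refine ⟨R, hR1, ?_⟩
  intro U ι _ _ _ b col A B hB hb ht
  have hmain := hR U ι b col A B hB hb ht
  have hok1 : ∀ f, (sb b (A f) (B f)).Ok t₀ (ρ f) 1 := by
    intro f
    obtain ⟨c, hc⟩ := hI' f
    exact ok_sb hb c (fun i hi => (hB f i).2 (by rw [hi]; exact hc)) (ht f) hR1
  have hc : ∀ (f : F) (α : prs (univ : Finset ι) → ZMod 2),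
      (cnt (DD t₀ (D f) (μ f)) (sb b (A f) (B f)) (GmD (V f)) (ra (B f) α) : ℝ) =
      (Nat.card (UV (V f) (μ f)) : ℝ) *
        fac (D f) (μ f) ((sb b (A f) (B f)).N t₀ (ra (B f) α)) (sb b (A f) (B f)).h :=
    fun f α => fac_cnt h4 t₀ (ρ f) (D f) (hs f) (hD f) (μ f) _ (hok1 f) _
  simp only [hc, (hss _).1] at hmain
  obtain ⟨w, hw⟩ : ∃ w : ℝ, w = ∏ f, (Nat.card (UV (V f) (μ f)) : ℝ) := ⟨_, rfl⟩
  have hw1 : 1 ≤ w := by
    rw [hw]
    calc (1 : ℝ) = ∏ f : F, (1 : ℝ) := by rw [Finset.prod_const_one]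
      _ ≤ _ := Finset.prod_le_prod (fun _ _ => zero_le_one) fun f _ => by
        have : Finite (UV (V f) (μ f)) := inferInstance
        exact_mod_cast (Nat.card_pos : 0 < Nat.card (UV (V f) (μ f)))
  have hn : (0 : ℝ) < 2 ^ (prs (univ : Finset ι)).card := by positivity
  simp only [Finset.prod_mul_distrib] at hmain
  rw [← hw, ← Finset.mul_sum, mul_div_assoc, ← mul_sub, abs_mul, abs_of_nonneg (by linarith)]
    at hmain
  have h6 : |(∑ α : prs (univ : Finset ι) → ZMod 2,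
        ∏ f, fac (D f) (μ f) ((sb b (A f) (B f)).N t₀ (ra (B f) α)) (sb b (A f) (B f)).h) /
        2 ^ (prs (univ : Finset ι)).card -
      ∏ f, ∏ k, (2 : ℝ) ^ (μ f k * (μ f k + 1) / 2)| ≤ ε :=
    (le_mul_of_one_le_left (abs_nonneg _) hw1).trans hmain
  rw [div_sub' hn.ne', abs_div, abs_of_pos hn, div_le_iff₀ hn, mul_comm (2 ^ _)] at h6
  exact h6

/-- the bound for all the pairs -/
theorem crd_bound (h5 : S_PI) (h7 : S_CRD) {s F Cc : Type} [Fintype s]
    [Fintype F] [Fintype Cc] (κ : F → Type) [∀ f, Fintype (κ f)] (V : ∀ f, κ f → Type)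
    [∀ f k, AddCommGroup (V f k)] [∀ f k, Module (ZMod 2) (V f k)] [∀ f k, Finite (V f k)]
    (I : F → Finset Cc) (t₀ : s) (ρ : F → s → ZMod 2) (D : ∀ f k, Dj s (V f k))
    (hs : ∀ f k, (D f k).s₀ = t₀) (hD : ∀ f k, (D f k).Ok (ρ f)) (μ : ∀ f, κ f → ℕ) :
    ∃ K : ℝ, 0 ≤ K ∧ ∀ (U ι : Type) [Fintype U] [Fintype ι] [LinearOrder ι]
    (b : Bk s U ι) (col : ι → Cc) (A : F → U → Prop) (B : F → ι → Prop),
    (∀ f i, B f i ↔ col i ∈ I f) →
    ∑ α : prs (univ : Finset ι) → ZMod 2, ∏ f, ∏ k,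
        (Nat.card (Sel (D f k) ((sb b (A f) (B f)).N t₀ (ra (B f) α))
          (sb b (A f) (B f)).h) : ℝ) ^ μ f k ≤
      K * (∏ f, (Nat.card (UV (V f) (μ f)) : ℝ)) ^ Fintype.card U *
        2 ^ (prs (univ : Finset ι)).card := by
  have hok : ∀ f, (DD t₀ (D f) (μ f)).Ok (ρ f) := fun f =>
    (h5 s (Σ k, Fin (μ f k)) (fun c => V f c.1) t₀ (ρ f) (fun c => D f c.1)
      (fun c => hs f c.1) (fun c => hD f c.1)).1
  obtain ⟨K, hK, h⟩ := h7 s F Cc (fun f => UV (V f) (μ f)) I t₀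
  refine ⟨K * (∏ f, (Nat.card (UV (V f) (μ f)) : ℝ)) ^ Fintype.card s, by positivity, ?_⟩
  intro U ι _ _ _ b col A B hB
  have h1 := h (fun f => DD t₀ (D f) (μ f)) (fun f => rfl) (fun f => (hok f).toSym)
    (fun f => (hok f).nd) U ι b col A B hB
  have hc : ∀ (f : F) (α : prs (univ : Finset ι) → ZMod 2),
      (Nat.card (Sel (DD t₀ (D f) (μ f)) ((sb b (A f) (B f)).N t₀ (ra (B f) α))
        (sb b (A f) (B f)).h) : ℝ) = ∏ k, (Nat.card (Sel (D f k)
          ((sb b (A f) (B f)).N t₀ (ra (B f) α)) (sb b (A f) (B f)).h) : ℝ) ^ μ f k :=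
    fun f α => card_DD h5 t₀ (ρ f) (D f) (hs f) (hD f) (μ f) _ _
  simp only [hc] at h1
  refine h1.trans (le_of_eq ?_)
  rw [Finset.prod_pow, pow_add]
  ring

/-- a product over the forms is bounded -/
theorem prod_fac_le {s F : Type} [Fintype s] [Fintype F] {κ : F → Type} [∀ f, Fintype (κ f)]
    {V : ∀ f, κ f → Type} [∀ f k, AddCommGroup (V f k)] [∀ f k, Module (ZMod 2) (V f k)]
    [∀ f k, Finite (V f k)] (P : F → Type) [∀ f, Fintype (P f)] (D : ∀ f k, Dj s (V f k))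
    (μ : ∀ f, κ f → ℕ) (N : ∀ f, P f → P f → ZMod 2) (h : ∀ f, P f → s → ZMod 2) (L : ℝ) :
    |(∏ f, fac (D f) (μ f) (N f) (h f)) - L| ≤ ((∏ f, cst (μ f)) + |L|) *
      ∏ f, ∏ k, (Nat.card (Sel (D f k) (N f) (h f)) : ℝ) ^ μ f k := by
  have h1 : |∏ f, fac (D f) (μ f) (N f) (h f)| ≤ (∏ f, cst (μ f)) *
      ∏ f, ∏ k, (Nat.card (Sel (D f k) (N f) (h f)) : ℝ) ^ μ f k := by
    rw [Finset.abs_prod, ← Finset.prod_mul_distrib]
    exact Finset.prod_le_prod (fun f _ => abs_nonneg _) fun f _ => fac_le _ _ _ _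
  have h2 : 1 ≤ ∏ f, ∏ k, (Nat.card (Sel (D f k) (N f) (h f)) : ℝ) ^ μ f k := by
    calc (1 : ℝ) = ∏ f : F, (1 : ℝ) := by rw [Finset.prod_const_one]
      _ ≤ _ := Finset.prod_le_prod (fun _ _ => zero_le_one) fun f _ => by
        calc (1 : ℝ) = ∏ k : κ f, (1 : ℝ) := by rw [Finset.prod_const_one]
          _ ≤ _ := Finset.prod_le_prod (fun _ _ => zero_le_one) fun k _ =>
            one_le_pow₀ (one_le_card (D f) (N f) (h f) k)
  refine (abs_sub _ _).trans ?_
  have h3 := le_mul_of_one_le_right (abs_nonneg L) h2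
  linarith

/-- **Job LD-DIVM.** -/
theorem t_DIVM (h1 : S_LAMF) (h2 : S_LAM2) (h3 : S_SS2) (h4 : S_CNT) (h5 : S_PI) (h6 : S_COL2)
    (h7 : S_CRD) : S_DIVM := by
  intro s N M _ _ _ κ _ V _ _ _ _ e he hem t₀ ρ D hs₀ hok hadj μ ε hε
  obtain ⟨L, hL⟩ : ∃ L : ℝ, L = ∏ m, ∏ k, (2 : ℝ) ^ (μ m k * (μ m k + 1) / 2) := ⟨_, rfl⟩
  have hL0 : 0 ≤ |L| := abs_nonneg L
  obtain ⟨ε1, hε1, hε1'⟩ : ∃ ε1 : ℝ, 0 < ε1 ∧ ε1 * (1 + 2 * |L|) ≤ ε ^ 3 / 2 := by
    refine ⟨ε ^ 3 / 2 / (1 + 2 * |L|), by positivity, le_of_eq ?_⟩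
    rw [div_mul_cancel₀ _ (by positivity)]
  -- the two families of forms
  have hinj1 : Function.Injective (fun m => univ.filter fun c : N → ZMod 2 =>
      ∑ i, e m i * c i ≠ 0) := by
    intro m m' hmm
    apply he
    apply inj1
    intro c
    have := congrArg (fun S : Finset (N → ZMod 2) => c ∈ S) hmm
    simpa using this
  have hne1 : ∀ m, (univ.filter fun c : N → ZMod 2 => ∑ i, e m i * c i ≠ 0).Nonempty := by
    intro m
    obtain ⟨c, hc⟩ := ne1 (e m) (hem m)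
    exact ⟨c, by simp [hc]⟩
  obtain ⟨I2, hI2⟩ : ∃ I2 : M ⊕ M → Finset (N ⊕ N → ZMod 2), I2 =
    (Sum.elim (fun m => univ.filter fun c => ∑ i, e m i * c (Sum.inl i) ≠ 0)
      (fun m => univ.filter fun c => ∑ i, e m i * c (Sum.inr i) ≠ 0)) := ⟨_, rfl⟩
  have hinj2 : Function.Injective I2 := by
    rw [hI2]
    intro f f' hff
    rcases f with m | m <;> rcases f' with m' | m'
    · congr 1
      apply he
      apply inj1
      intro c
      have := congrArg (fun S : Finset (N ⊕ N → ZMod 2) => (Sum.elim c 0 : N ⊕ N → ZMod 2) ∈ S) hff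
      simpa using this
    · exfalso
      obtain ⟨c, hc⟩ := ne1 (e m) (hem m)
      have := congrArg (fun S : Finset (N ⊕ N → ZMod 2) => (Sum.elim c 0 : N ⊕ N → ZMod 2) ∈ S) hff
      simp at this
      exact hc this
    · exfalso
      obtain ⟨c, hc⟩ := ne1 (e m') (hem m')
      have := congrArg (fun S : Finset (N ⊕ N → ZMod 2) => (Sum.elim c 0 : N ⊕ N → ZMod 2) ∈ S) hff
      simp at this
      exact hc this
    · congr 1
      apply he
      apply inj1
      intro c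
      have := congrArg (fun S : Finset (N ⊕ N → ZMod 2) => (Sum.elim 0 c : N ⊕ N → ZMod 2) ∈ S) hff
      simpa using this
  have hne2 : ∀ f, (I2 f).Nonempty := by
    rw [hI2]
    intro f
    rcases f with m | m
    · obtain ⟨c, hc⟩ := ne1 (e m) (hem m)
      exact ⟨Sum.elim c 0, by simp [hc]⟩
    · obtain ⟨c, hc⟩ := ne1 (e m) (hem m)
      exact ⟨Sum.elim 0 c, by simp [hc]⟩
  obtain ⟨R1, hR11, hR1⟩ := fac_mean h1 h3 h4 h5 κ V
    (fun m => univ.filter fun c : N → ZMod 2 => ∑ i, e m i * c i ≠ 0) hinj1 hne1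
    t₀ (fun m => lbf e ρ m) D hs₀ hok hadj μ hε1
  obtain ⟨R2, hR21, hR2⟩ := fac_mean h1 h3 h4 h5 (fun f => κ (Sum.elim id id f))
    (fun f k => V (Sum.elim id id f) k) I2 hinj2 hne2
    t₀ (fun f => lbf e ρ (Sum.elim id id f)) (fun f k => D (Sum.elim id id f) k)
    (fun f k => hs₀ _ _) (fun f k => hok _ _) (fun f => hadj _)
    (fun f k => μ (Sum.elim id id f) k) hε1
  obtain ⟨K, hK, hKb⟩ := crd_bound h5 h7 (fun f => κ (Sum.elim id id f))
    (fun f k => V (Sum.elim id id f) k) I2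
    t₀ (fun f => lbf e ρ (Sum.elim id id f)) (fun f k => D (Sum.elim id id f) k)
    (fun f k => hs₀ _ _) (fun f k => hok _ _) (fun f k => μ (Sum.elim id id f) k)
  obtain ⟨G, hG⟩ : ∃ G : ℝ, G = ∏ f : M ⊕ M, (Nat.card (UV (fun k => V (Sum.elim id id f) k)
    (fun k => μ (Sum.elim id id f) k)) : ℝ) := ⟨_, rfl⟩
  have hG1 : 1 ≤ G := by
    rw [hG]
    calc (1 : ℝ) = ∏ f : M ⊕ M, (1 : ℝ) := by rw [Finset.prod_const_one]
      _ ≤ _ := Finset.prod_le_prod (fun _ _ => zero_le_one) fun f _ => by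
        have : Finite (UV (fun k => V (Sum.elim id id f) k)
          (fun k => μ (Sum.elim id id f) k)) := inferInstance
        exact_mod_cast (Nat.card_pos : 0 < Nat.card (UV (fun k => V (Sum.elim id id f) k)
          (fun k => μ (Sum.elim id id f) k)))
  obtain ⟨c₁, hc₁⟩ : ∃ c₁ : ℝ, c₁ = (∏ m, cst (μ m)) + |L| := ⟨_, rfl⟩
  have hc₁0 : 0 ≤ c₁ := by
    rw [hc₁]
    have : 0 ≤ ∏ m, cst (μ m) := Finset.prod_nonneg fun m _ => cst_nonneg _
    linarith
  obtain ⟨δ, hδ, hδ'⟩ : ∃ δ : ℝ, 0 < δ ∧ c₁ ^ 2 * K * δ ≤ ε ^ 3 / 2 := by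
    refine ⟨ε ^ 3 / 2 / (c₁ ^ 2 * K + 1), by positivity, ?_⟩
    have h8 : c₁ ^ 2 * K / (c₁ ^ 2 * K + 1) ≤ 1 := by
      rw [div_le_one (by positivity)]
      linarith
    calc c₁ ^ 2 * K * (ε ^ 3 / 2 / (c₁ ^ 2 * K + 1)) =
          ε ^ 3 / 2 * (c₁ ^ 2 * K / (c₁ ^ 2 * K + 1)) := by ring
      _ ≤ ε ^ 3 / 2 * 1 := mul_le_mul_of_nonneg_left h8 (by positivity)
      _ = _ := mul_one _
  obtain ⟨A, R, hAR⟩ := h6 s (N ⊕ N → ZMod 2) t₀ (max R1 R2) G δ hG1 hδ
  refine ⟨A, R, ?_⟩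
  intro U ι _ _ _ b hb X hX
  have hbad := hAR U ι b hb
  have hcardΩ : (Fintype.card (prs (univ : Finset ι) → ZMod 2) : ℝ) =
      2 ^ (prs (univ : Finset ι)).card := by
    rw [Fintype.card_fun, ZMod.card, Fintype.card_coe]
    push_cast
    rfl
  have hΩpos : (0 : ℝ) < 2 ^ (prs (univ : Finset ι)).card := by positivity
  have hXf : ∀ α τ, X α τ = ∏ m, fac (D m) (μ m)
      ((sb b (fun u => act e τ m (Sum.inl u)) (fun i => act e τ m (Sum.inr i))).N t₀
          (ra (fun i => act e τ m (Sum.inr i)) α))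
        (sb b (fun u => act e τ m (Sum.inl u)) (fun i => act e τ m (Sum.inr i))).h :=
    fun α τ => hX α τ
  have key := cheb2 (Ω := prs (univ : Finset ι) → ZMod 2)
    (T := {τ : U ⊕ ι → N → ZMod 2 // lbs b.h τ = ρ}) (fun α τ => X α τ.1)
    (fun τ τ' => POk b (fun i => (Sum.elim (τ.1 (Sum.inr i)) (τ'.1 (Sum.inr i)) :
      N ⊕ N → ZMod 2)) t₀ (max R1 R2)) L ε (ε1 * (1 + 2 * |L|))
    (c₁ ^ 2 * (K * G ^ Fintype.card U)) (c₁ ^ 2 * K * δ)
    ((2 ^ Fintype.card N : ℝ) ^ (Fintype.card U + Fintype.card ι)) hε (by positivity)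
    (by positivity) (by positivity)
    (by
      have : Fintype.card {τ : U ⊕ ι → N → ZMod 2 // lbs b.h τ = ρ} ≤
          (2 ^ Fintype.card N) ^ (Fintype.card U + Fintype.card ι) := by
        refine (Fintype.card_subtype_le _).trans (le_of_eq ?_)
        rw [Fintype.card_fun, Fintype.card_fun, ZMod.card, Fintype.card_sum]
      exact_mod_cast this)
    (by
      intro τ τ' hg
      have single : ∀ σ : {τ : U ⊕ ι → N → ZMod 2 // lbs b.h τ = ρ},
          POk b (fun i => σ.1 (Sum.inr i)) t₀ R1 →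
          |(∑ α : prs (univ : Finset ι) → ZMod 2, X α σ.1) -
            L * 2 ^ (prs (univ : Finset ι)).card| ≤
            ε1 * 2 ^ (prs (univ : Finset ι)).card := by
        intro σ hσ
        have h9 := hR1 U ι b (fun i => σ.1 (Sum.inr i)) (fun m u => act e σ.1 m (Sum.inl u))
          (fun m i => act e σ.1 m (Sum.inr i)) (by intro m i; simp [act]) hσ
          (fun m => lab b e ρ σ.1 σ.2 m)
        simp only [hXf]
        rw [hL]
        exact h9
      have g1 := single τ (by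
        have h7 := POk_comp b _ (fun c : N ⊕ N → ZMod 2 => fun i : N => c (Sum.inl i)) (by
          intro c; exact ⟨Sum.elim c 0, by funext i; rfl⟩) t₀ _ hg
        exact POk_mono b _ t₀ (le_max_left _ _) h7)
      have g2 := single τ' (by
        have h7 := POk_comp b _ (fun c : N ⊕ N → ZMod 2 => fun i : N => c (Sum.inr i)) (by
          intro c; exact ⟨Sum.elim 0 c, by funext i; rfl⟩) t₀ _ hg
        exact POk_mono b _ t₀ (le_max_left _ _) h7)
      have g3 : |(∑ α : prs (univ : Finset ι) → ZMod 2, X α τ.1 * X α τ'.1) -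
            L * L * 2 ^ (prs (univ : Finset ι)).card| ≤
            ε1 * 2 ^ (prs (univ : Finset ι)).card := by
        have h9 := hR2 U ι b (fun i => (Sum.elim (τ.1 (Sum.inr i)) (τ'.1 (Sum.inr i)) :
            N ⊕ N → ZMod 2))
          (Sum.elim (fun m u => act e τ.1 m (Sum.inl u)) (fun m u => act e τ'.1 m (Sum.inl u)))
          (Sum.elim (fun m i => act e τ.1 m (Sum.inr i)) (fun m i => act e τ'.1 m (Sum.inr i)))
          (by
            rw [hI2]
            intro f i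
            rcases f with m | m <;> simp [act])
          (POk_mono b _ t₀ (le_max_right _ _) hg)
          (by
            intro f
            rcases f with m | m
            · exact lab b e ρ τ.1 τ.2 m
            · exact lab b e ρ τ'.1 τ'.2 m)
        simp only [Fintype.prod_sum_type] at h9
        simp only [hXf]
        rw [hL]
        exact h9
      rw [hcardΩ]
      have e1 : ∑ α, (X α τ.1 - L) * (X α τ'.1 - L) =
          ((∑ α : prs (univ : Finset ι) → ZMod 2, X α τ.1 * X α τ'.1) -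
            L * L * 2 ^ (prs (univ : Finset ι)).card) -
          L * ((∑ α : prs (univ : Finset ι) → ZMod 2, X α τ.1) -
            L * 2 ^ (prs (univ : Finset ι)).card) -
          L * ((∑ α : prs (univ : Finset ι) → ZMod 2, X α τ'.1) -
            L * 2 ^ (prs (univ : Finset ι)).card) := by
        rw [← hcardΩ]
        have : ∀ α, (X α τ.1 - L) * (X α τ'.1 - L) =
            X α τ.1 * X α τ'.1 - L * X α τ.1 - L * X α τ'.1 + L * L := by intro α; ring
        simp only [this, Finset.sum_add_distrib, Finset.sum_sub_distrib, ← Finset.mul_sum,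
          Finset.sum_const, Finset.card_univ, nsmul_eq_mul]
        ring
      rw [e1]
      refine (abs_sub _ _).trans ?_
      refine (add_le_add (abs_sub _ _) le_rfl).trans ?_
      rw [abs_mul, abs_mul]
      have g1' := mul_le_mul_of_nonneg_left g1 hL0
      have g2' := mul_le_mul_of_nonneg_left g2 hL0
      nlinarith)
    (by
      intro τ τ'
      have h9 := hKb U ι b (fun i => (Sum.elim (τ.1 (Sum.inr i)) (τ'.1 (Sum.inr i)) :
            N ⊕ N → ZMod 2))
          (Sum.elim (fun m u => act e τ.1 m (Sum.inl u)) (fun m u => act e τ'.1 m (Sum.inl u)))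
          (Sum.elim (fun m i => act e τ.1 m (Sum.inr i)) (fun m i => act e τ'.1 m (Sum.inr i)))
          (by
            rw [hI2]
            intro f i
            rcases f with m | m <;> simp [act])
      simp only [Fintype.prod_sum_type (fun f : M ⊕ M => ∏ k, _)] at h9
      rw [← hG] at h9
      rw [hcardΩ]
      have hX1 : ∀ (α : prs (univ : Finset ι) → ZMod 2)
          (σ : {τ : U ⊕ ι → N → ZMod 2 // lbs b.h τ = ρ}), |X α σ.1 - L| ≤ c₁ *
          ∏ m, ∏ k, (Nat.card (Sel (D m k) ((sb b (fun u => act e σ.1 m (Sum.inl u))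
            (fun i => act e σ.1 m (Sum.inr i))).N t₀ (ra (fun i => act e σ.1 m (Sum.inr i)) α))
            (sb b (fun u => act e σ.1 m (Sum.inl u))
              (fun i => act e σ.1 m (Sum.inr i))).h) : ℝ) ^ μ m k := by
        intro α σ
        rw [hXf, hc₁]
        exact prod_fac_le _ D μ _ _ L
      calc |∑ α, (X α τ.1 - L) * (X α τ'.1 - L)| ≤ ∑ α, |(X α τ.1 - L) * (X α τ'.1 - L)| :=
            Finset.abs_sum_le_sum_abs _ _
        _ ≤ ∑ α, c₁ ^ 2 * ((∏ m, ∏ k, (Nat.card (Sel (D m k)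
            ((sb b (fun u => act e τ.1 m (Sum.inl u))
            (fun i => act e τ.1 m (Sum.inr i))).N t₀ (ra (fun i => act e τ.1 m (Sum.inr i)) α))
            (sb b (fun u => act e τ.1 m (Sum.inl u))
              (fun i => act e τ.1 m (Sum.inr i))).h) : ℝ) ^ μ m k) *
            ∏ m, ∏ k, (Nat.card (Sel (D m k) ((sb b (fun u => act e τ'.1 m (Sum.inl u))
            (fun i => act e τ'.1 m (Sum.inr i))).N t₀ (ra (fun i => act e τ'.1 m (Sum.inr i)) α))
            (sb b (fun u => act e τ'.1 m (Sum.inl u))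
              (fun i => act e τ'.1 m (Sum.inr i))).h) : ℝ) ^ μ m k) := by
            refine Finset.sum_le_sum fun α _ => ?_
            rw [abs_mul]
            refine (mul_le_mul (hX1 α τ) (hX1 α τ') (abs_nonneg _) ?_).trans (le_of_eq ?_)
            · refine mul_nonneg hc₁0 (Finset.prod_nonneg fun m _ => Finset.prod_nonneg fun k _ => ?_)
              positivity
            · ring
        _ ≤ c₁ ^ 2 * (K * G ^ Fintype.card U) * 2 ^ (prs (univ : Finset ι)).card := by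
            rw [← Finset.mul_sum, mul_assoc]
            exact mul_le_mul_of_nonneg_left h9 (by positivity))
    (by
      have hinj : (univ.filter fun x : {τ : U ⊕ ι → N → ZMod 2 // lbs b.h τ = ρ} ×
          {τ : U ⊕ ι → N → ZMod 2 // lbs b.h τ = ρ} =>
          ¬ POk b (fun i => (Sum.elim (x.1.1 (Sum.inr i)) (x.2.1 (Sum.inr i)) :
            N ⊕ N → ZMod 2)) t₀ (max R1 R2)).card ≤
          Fintype.card (U → N ⊕ N → ZMod 2) *
            Nat.card {col : ι → N ⊕ N → ZMod 2 // ¬ POk b col t₀ (max R1 R2)} := by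
        rw [← Fintype.card_subtype, Nat.card_eq_fintype_card, ← Fintype.card_prod]
        refine Fintype.card_le_of_injective (fun x =>
          (fun u => (Sum.elim (x.1.1.1 (Sum.inl u)) (x.1.2.1 (Sum.inl u)) : N ⊕ N → ZMod 2),
            ⟨fun i => (Sum.elim (x.1.1.1 (Sum.inr i)) (x.1.2.1 (Sum.inr i)) : N ⊕ N → ZMod 2),
              x.2⟩)) ?_
        rintro ⟨⟨⟨x, hx⟩, ⟨y, hy⟩⟩, hxy⟩ ⟨⟨⟨x', hx'⟩, ⟨y', hy'⟩⟩, hxy'⟩ heq
        simp only [Prod.mk.injEq, Subtype.mk.injEq] at heq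
        obtain ⟨q1, q2⟩ := heq
        have q3 : x = x' := by
          funext p j
          rcases p with u | i
          · exact congrFun (congrFun q1 u) (Sum.inl j)
          · exact congrFun (congrFun q2 i) (Sum.inl j)
        have q4 : y = y' := by
          funext p j
          rcases p with u | i
          · exact congrFun (congrFun q1 u) (Sum.inr j)
          · exact congrFun (congrFun q2 i) (Sum.inr j)
        subst q3 q4
        rfl
      have h9 : (Fintype.card (N ⊕ N → ZMod 2) : ℝ) = (2 ^ Fintype.card N) ^ 2 := by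
        rw [Fintype.card_fun, ZMod.card, Fintype.card_sum]
        push_cast
        rw [← pow_mul]; congr 1; ring
      have h10 : (Fintype.card (U → N ⊕ N → ZMod 2) : ℝ) =
          ((2 ^ Fintype.card N) ^ 2) ^ Fintype.card U := by
        rw [Fintype.card_fun]
        push_cast
        rw [h9]
      have h11 := Nat.cast_le (α := ℝ) |>.2 hinj
      refine (mul_le_mul_of_nonneg_right h11 (by positivity)).trans ?_
      rw [Nat.cast_mul, h10]
      rw [h9] at hbad
      calc (((2 : ℝ) ^ Fintype.card N) ^ 2) ^ Fintype.card U *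
            (Nat.card {col : ι → N ⊕ N → ZMod 2 // ¬ POk b col t₀ (max R1 R2)} : ℝ) *
            (c₁ ^ 2 * (K * G ^ Fintype.card U)) =
          (((2 : ℝ) ^ Fintype.card N) ^ 2) ^ Fintype.card U *
            ((Nat.card {col : ι → N ⊕ N → ZMod 2 // ¬ POk b col t₀ (max R1 R2)} : ℝ) *
              G ^ Fintype.card U) * (c₁ ^ 2 * K) := by ring
        _ ≤ (((2 : ℝ) ^ Fintype.card N) ^ 2) ^ Fintype.card U *
            (δ * (((2 : ℝ) ^ Fintype.card N) ^ 2) ^ Fintype.card ι) * (c₁ ^ 2 * K) := by gcongr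
        _ = c₁ ^ 2 * K * δ *
            (((2 : ℝ) ^ Fintype.card N) ^ (Fintype.card U + Fintype.card ι)) ^ 2 := by
          rw [← pow_mul, ← pow_mul, ← pow_mul, pow_add, mul_pow, ← pow_mul, ← pow_mul]
          ring)
    (by linarith)
  rw [hcardΩ] at key
  refine le_trans (le_of_eq ?_) key
  congr 2
  apply Finset.filter_congr
  intro α _
  rw [← hL]
  have h12 : ∑ τ ∈ (univ : Finset (U ⊕ ι → N → ZMod 2)).filter (fun τ => lbs b.h τ = ρ),
      (X α τ - L) = ∑ τ : {τ : U ⊕ ι → N → ZMod 2 // lbs b.h τ = ρ}, (X α τ.1 - L) :=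
    Finset.sum_subtype _ (fun x => by simp) _
  rw [h12]

end Pool.Agent.Q269.DX.A182L
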